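import Pool.Agent.Helper27.RV.St

set_option autoImplicit false

/-!
Project RV, module DSM: few functions meet a box on a large set.
-/

open Cardinal Ordinal Set

universe u

namespace Pool.Agent.Helper34.RV

open Pool.Agent.Helper27.RV

theorem pDSM : StDSM.{u} := by
  intro Λ T K S r N e hr hK hpow htwo hN1 hN2
  have hne : Nonempty K := by
    rw [← Cardinal.mk_ne_zero_iff]
    exact (aleph0_pos.trans_le hK).ne'
  obtain ⟨k0⟩ := hne
  have h1 : ∀ (a : T) (x : Λ), ∃ k : K, (∃ k', S a x = e x k') → S a x = e x k := by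
    intro a x
    by_cases hx : ∃ k', S a x = e x k'
    · obtain ⟨k', hk'⟩ := hx
      exact ⟨k', fun _ => hk'⟩
    · exact ⟨k0, fun hh => absurd hh hx⟩
  choose h hh using h1
  have key : ∀ a b : T, r b < r a → {x | ∃ k, S a x = e x k} = {x | ∃ k, S b x = e x k} →
      h a = h b → {x | ∃ k, S a x = e x k} ∈ N a := by
    intro a b hab hY hf
    refine hN1 a _ _ ?_ (hN2 a b hab)
    intro x hx
    have hx2 : x ∈ {x | ∃ k, S b x = e x k} := hY ▸ hx
    have e1 := hh a x hx
    have e2 := hh b x hx2
    change S a x = S b x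
    rw [e1, e2, hf]
  have hinj : Function.Injective
      (fun a : {a | {x | ∃ k, S a x = e x k} ∉ N a} =>
        (({x | ∃ k, S a.1 x = e x k} : Set Λ), h a.1)) := by
    intro a b hab
    have hY : ({x | ∃ k, S a.1 x = e x k} : Set Λ) = {x | ∃ k, S b.1 x = e x k} :=
      congrArg Prod.fst hab
    have hf : h a.1 = h b.1 := congrArg Prod.snd hab
    rcases lt_trichotomy (r a.1) (r b.1) with h2 | h2 | h2
    · exact absurd (key b.1 a.1 h2 hY.symm hf.symm) b.2
    · exact Subtype.ext (hr h2)
    · exact absurd (key a.1 b.1 h2 hY hf) a.2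
  have hle := Cardinal.mk_le_of_injective hinj
  refine hle.trans ?_
  rw [Cardinal.mk_prod, Cardinal.lift_id, Cardinal.lift_id, Cardinal.mk_set,
    ← Cardinal.power_def]
  exact (mul_le_mul' htwo hpow).trans (Cardinal.mul_eq_self hK).le

end Pool.Agent.Helper34.RV
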