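import Pool.Agent.Helper27.RV.StL

set_option autoImplicit false

/-!
Project RV, module GFN: fewer than `κ` of the values `s a` are bounded by one `f th`.
-/

open Cardinal Ordinal Set Filter

universe u

namespace Pool.Agent.Helper34.RV

open Pool.Agent.Helper65.GS Pool.Agent.Helper36.VC Pool.Agent.Helper27.RV

private theorem bound_fun {κ : Cardinal.{u}} {t : Ordinal.{u}} (h0 : 0 < t)
    (hc : κ ≤ t.cof) (U : Set Ordinal.{u}) (s : Ordinal.{u} → Ordinal.{u})
    (hs : ∀ a ∈ U, s a < t) (k : Ordinal.{u}) :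
    ∃ g < t, k < κ.ord → ∀ a ∈ U, a < k → s a < g := by
  classical
  by_cases hk : k < κ.ord
  · have hcard : #k.ToType < t.cof := by
      rw [mk_toType]
      exact (Cardinal.lt_ord.1 hk).trans_le hc
    obtain ⟨g, hg, hg2⟩ := exists_bd hcard
      (fun q => if ((q.toOrd : Ordinal.{u})) ∈ U then s (q.toOrd : Ordinal.{u}) else 0)
      (fun q => by
        by_cases hq : (q.toOrd : Ordinal.{u}) ∈ U
        · simp only [hq, if_true]
          exact hs _ hq
        · simp only [hq, if_false]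
          exact h0)
    refine ⟨g, hg, fun _ a ha hak => ?_⟩
    have h1 := hg2 (ToType.mk ⟨a, hak⟩)
    have h2 : (((ToType.mk ⟨a, hak⟩).toOrd : Set.Iio k) : Ordinal.{u}) = a := by
      simp only [ToType.toOrd, OrderIso.symm_apply_apply]
    rw [h2, if_pos ha] at h1
    exact h1
  · exact ⟨0, h0, fun h => absurd h hk⟩

theorem pGFN : StGFN.{u} := by
  intro X κ W A t l f h U s hs hU
  have h0κ : (0 : Ordinal.{u}) < κ.ord := by
    rw [Cardinal.lt_ord, Ordinal.card_zero]
    exact aleph0_pos.trans h.unc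
  have h0 : 0 < t := h0κ.trans_le h.kt
  by_cases hcof : κ ≤ t.cof
  · refine ⟨U, subset_rfl, hU, ?_⟩
    have h1 : ∀ x : X, ∃ g < t, f κ.ord x < κ.ord → ∀ a ∈ U, a < f κ.ord x → s a < g :=
      fun x => bound_fun h0 hcof U s hs (f κ.ord x)
    choose g hg hg2 using h1
    have hpos : Pos W {x ∈ A | f κ.ord x < κ.ord} := h.pos.ae h.k_lt
    obtain ⟨th, hth, hB⟩ := h.rep.onto {x ∈ A | f κ.ord x < κ.ord} (fun x hx => hx.1) hpos g
      (fun x _ => hg x)
    refine ⟨_, fun x hx => hx.1.1, hB, th, hth, fun a ha haκ => ?_⟩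
    filter_upwards [h.lt_k haκ] with x hx hxB
    have h3 : g x = f th x := hxB.2
    rw [← h3]
    exact (hg2 x hxB.1.2 a ha (hx hxB.1.1)).le
  · rw [not_le] at hcof
    obtain ⟨g, hg1, hg2⟩ := enum_cof (K := t.cof.out) (t := t) (by rw [mk_out]) h0
    have hne : ∀ a : Ordinal.{u}, ∃ i : t.cof.out, a ∈ U → s a ≤ g i := by
      intro a
      by_cases ha : a ∈ U
      · obtain ⟨k, hk⟩ := hg2 (s a) (hs a ha)
        exact ⟨k, fun _ => hk⟩
      · obtain ⟨k, -⟩ := hg2 0 h0
        exact ⟨k, fun hh => absurd hh ha⟩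
    choose i hi using hne
    have hex : ∃ i0 : t.cof.out, ∀ a0 < κ.ord, ∃ a ∈ U, i a = i0 ∧ a0 < a ∧ a < κ.ord := by
      by_contra hcon
      push Not at hcon
      choose b hb hb2 using hcon
      obtain ⟨b', hb', hb3⟩ := exists_bd (Q := t.cof.out) (t := κ.ord) (by
        rw [mk_out, h.reg.cof_ord]
        exact hcof) b hb
      obtain ⟨a, haU, ha1, ha2⟩ := hU b' hb'
      exact absurd ha2 (not_lt.2 (hb2 (i a) a haU rfl ((hb3 (i a)).trans ha1)))
    obtain ⟨i0, hi0⟩ := hex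
    obtain ⟨th, hth, hB⟩ := h.rep.val subset_rfl h.pos (hg1 i0)
    refine ⟨{a ∈ U | i a = i0}, fun a ha => ha.1, ?_, _, fun x hx => hx.1, hB, th, hth, ?_⟩
    · intro a0 ha0
      obtain ⟨a, h1, h2, h3, h4⟩ := hi0 a0 ha0
      exact ⟨a, ⟨h1, h2⟩, h3, h4⟩
    · intro a ha _
      refine Eventually.of_forall fun x hx => ?_
      have h3 : f th x = g i0 := hx.2
      rw [h3, ← ha.2]
      exact hi a ha.1

end Pool.Agent.Helper34.RV
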